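import Pool.Agent.Helper82.CN.St

set_option autoImplicit false

namespace Pool.Agent.Helper14.CN

open Finset Filter Pool.Agent.Helper82.CN

private lemma fact_lower_MKB (k : ℕ) (hk : 1 ≤ k) :
    (k : ℝ) * Real.log k - k ≤ Real.log (k.factorial) := by
  have hk0 : (0 : ℝ) < k := by exact_mod_cast hk
  have h := Real.pow_div_factorial_le_exp (k : ℝ) hk0.le k
  have hf : (0 : ℝ) < (k.factorial : ℝ) := by exact_mod_cast k.factorial_pos
  have h2 : (k : ℝ) ^ k ≤ Real.exp k * (k.factorial : ℝ) := by
    rwa [div_le_iff₀ hf] at h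
  have h3 := Real.log_le_log (by positivity) h2
  rw [Real.log_pow, Real.log_mul (Real.exp_pos _).ne' hf.ne', Real.log_exp] at h3
  linarith

private lemma fact_upper_MKB (k : ℕ) (hk : 1 ≤ k) :
    Real.log (k.factorial) ≤ (k : ℝ) * Real.log k - k + Real.log k + 1 := by
  induction k, hk using Nat.le_induction with
  | base => simp
  | succ k hk ih =>
    have hk0 : (0 : ℝ) < k := by exact_mod_cast hk
    have hf : (0 : ℝ) < (k.factorial : ℝ) := by exact_mod_cast k.factorial_pos
    have h1 : Real.log ((k : ℝ) / (k + 1)) ≤ (k : ℝ) / (k + 1) - 1 :=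
      Real.log_le_sub_one_of_pos (by positivity)
    rw [Real.log_div hk0.ne' (by positivity)] at h1
    have h2 : ((k : ℝ) + 1) * (Real.log k - Real.log (k + 1)) ≤ -1 := by
      have h3 := mul_le_mul_of_nonneg_left h1 (show (0 : ℝ) ≤ (k : ℝ) + 1 by positivity)
      have h4 : ((k : ℝ) + 1) * ((k : ℝ) / (k + 1) - 1) = -1 := by
        field_simp
        ring
      linarith
    rw [Nat.factorial_succ]
    push_cast
    rw [Real.log_mul (by positivity) hf.ne']
    nlinarith [ih, h2]

theorem tMKB : StMkb := by
  intro p K δ hp0 hp1 hK hδ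
  have hβ : 0 < bb p := by
    unfold bb
    apply Real.log_pos
    rw [lt_div_iff₀ (by linarith)]
    linarith
  set β := bb p with hβd
  set C : ℝ := 1 + β / 2 + K * β / 2 with hC
  have hC0 : 0 < C := by positivity
  set A : ℝ := 6 / β + K + 1 with hA
  have hA0 : 0 < A := by positivity
  set B : ℝ := (6 / β + K) * C + 3 with hB
  have hB0 : 0 < B := by positivity
  set ε : ℝ := min (δ * β / (2 * A)) (β / 4) with hε
  have hε0 : 0 < ε := by
    rw [hε]
    exact lt_min (by positivity) (by positivity)
  have hlog : Tendsto (fun n : ℕ => Real.log (n : ℝ)) atTop atTop :=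
    Real.tendsto_log_atTop.comp tendsto_natCast_atTop_atTop
  have hlogb : Tendsto (fun n : ℕ => Real.log (n : ℝ) / β) atTop atTop :=
    hlog.atTop_div_const hβ
  have h1 := hlogb.eventually (Real.isLittleO_log_id_atTop.bound hε0)
  have h2 := hlog.eventually (eventually_ge_atTop (2 * B / δ + 4 * C + 1))
  obtain ⟨n0, hn0⟩ := eventually_atTop.1 (h1.and h2)
  refine ⟨n0, fun n k hn hk => ?_⟩
  obtain ⟨h3, h4⟩ := hn0 n hn
  set lam := Real.log (n : ℝ) with hlam
  have hl1 : 1 ≤ lam := by
    have : 0 < 2 * B / δ := by positivity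
    linarith
  have hl0 : 0 < lam := by linarith
  have hlB : B ≤ δ / 2 * lam := by
    have : 2 * B / δ ≤ lam := by linarith
    rw [div_le_iff₀ hδ] at this
    linarith
  have hlC : C ≤ lam / 4 := by
    have : 0 < 2 * B / δ := by positivity
    linarith
  set u := Real.log (lam / β) with hu
  have hlb : 0 < lam / β := by positivity
  simp only [id, Real.norm_eq_abs, abs_of_pos hlb] at h3
  have hu1 : A * |u| ≤ δ / 2 * lam := by
    have h5 : |u| ≤ δ * β / (2 * A) * (lam / β) :=
      h3.trans (mul_le_mul_of_nonneg_right (min_le_left _ _) hlb.le)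
    have h6 : δ * β / (2 * A) * (lam / β) = δ / 2 * lam / A := by
      field_simp
    rw [h6, le_div_iff₀ hA0] at h5
    linarith
  have hu2 : |u| ≤ lam / 4 := by
    have h5 : |u| ≤ β / 4 * (lam / β) :=
      h3.trans (mul_le_mul_of_nonneg_right (min_le_right _ _) hlb.le)
    have h6 : β / 4 * (lam / β) = lam / 4 := by
      field_simp
    linarith
  -- the basic quantities
  have hal : β / 2 * (al p n - 1) = lam - u + 1 - Real.log 2 := by
    unfold al
    rw [← hβd, ← hlam, ← hu]
    field_simp
    ring
  set x : ℝ := al p n - k with hx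
  have hxK : |x| ≤ K := by
    rw [hx, abs_sub_comm]
    exact hk
  set w : ℝ := k * β / 2 - lam with hw
  have hwval : w = -u + (1 - Real.log 2 + β / 2 - x * β / 2) := by
    rw [hw, hx]
    linear_combination hal
  have hw1 : |w| ≤ |u| + C := by
    have h5 : |1 - Real.log 2 + β / 2 - x * β / 2| ≤ C := by
      have hx1 : |x * β / 2| ≤ K * β / 2 := by
        rw [mul_div_assoc, abs_mul, abs_of_pos (show (0 : ℝ) < β / 2 by positivity)]
        have := mul_le_mul_of_nonneg_right hxK (show (0 : ℝ) ≤ β / 2 by positivity)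
        linarith
      rw [abs_le] at hx1 ⊢
      have h7 : 0 < Real.log 2 := Real.log_pos (by norm_num)
      have h8 := Real.log_two_lt_d9
      constructor <;> linarith [hx1.1, hx1.2]
    rw [hwval]
    calc |-u + (1 - Real.log 2 + β / 2 - x * β / 2)| ≤
        |-u| + |1 - Real.log 2 + β / 2 - x * β / 2| := abs_add_le _ _
      _ ≤ |u| + C := by rw [abs_neg]; linarith
  have hw2 : |w| ≤ lam / 2 := by linarith
  have hkb : (k : ℝ) * β / 2 = lam + w := by rw [hw]; ring
  have hw3 := abs_le.1 hw2
  have hkpos : 0 < (k : ℝ) := by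
    have : 0 < (k : ℝ) * β / 2 := by rw [hkb]; linarith
    by_contra hcon
    push Not at hcon
    have : (k : ℝ) * β / 2 ≤ 0 := by
      have := mul_nonpos_of_nonpos_of_nonneg hcon hβ.le
      linarith
    linarith
  have hk1 : 1 ≤ k := by exact_mod_cast hkpos
  -- the logarithm of k
  set L : ℝ := Real.log (2 * lam / β) - Real.log k with hL
  have h2lb : 0 < 2 * lam / β := by positivity
  have hq : (k : ℝ) / (2 * lam / β) = 1 + w / lam := by
    rw [div_eq_iff h2lb.ne']
    have : (k : ℝ) = 2 * (lam + w) / β := by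
      rw [← hkb]
      field_simp
    rw [this]
    field_simp
  have hz : |w / lam| ≤ 1 / 2 := by
    rw [abs_div, abs_of_pos hl0, div_le_iff₀ hl0]
    linarith
  have hz' := abs_le.1 hz
  have hLval : L = -Real.log (1 + w / lam) := by
    rw [← hq, Real.log_div hkpos.ne' h2lb.ne', hL]
    ring
  have hLabs : |L| ≤ 2 * |w / lam| := by
    rw [hLval, abs_neg]
    set z := w / lam with hzd
    have h1z : 0 < 1 + z := by linarith
    have hup : Real.log (1 + z) ≤ z := by
      have := Real.log_le_sub_one_of_pos h1z
      linarith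
    have hlo : z / (1 + z) ≤ Real.log (1 + z) := by
      have := Real.one_sub_inv_le_log_of_pos h1z
      have h9 : z / (1 + z) = 1 - (1 + z)⁻¹ := by
        field_simp
        ring
      rw [h9]
      exact this
    rw [abs_le]
    constructor
    · rcases le_or_gt 0 z with h0 | h0
      · have : 0 ≤ z / (1 + z) := by positivity
        have : 0 ≤ |z| := abs_nonneg z
        linarith
      · rw [abs_of_neg h0]
        have : 2 * z ≤ z / (1 + z) := by
          rw [le_div_iff₀ h1z]
          nlinarith
        linarith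
    · rcases le_or_gt 0 z with h0 | h0
      · rw [abs_of_nonneg h0]
        linarith
      · rw [abs_of_neg h0]
        linarith
  have hkL : |(k : ℝ) * L| ≤ 6 / β * |w| := by
    rw [abs_mul, abs_of_pos hkpos]
    have hkle : (k : ℝ) ≤ 3 * lam / β := by
      rw [le_div_iff₀ hβ]
      have := hkb
      linarith
    calc (k : ℝ) * |L| ≤ (3 * lam / β) * (2 * |w / lam|) := by
          apply mul_le_mul hkle hLabs (abs_nonneg _) (by positivity)
      _ = 6 / β * |w| := by
          rw [abs_div, abs_of_pos hl0]
          field_simp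
          ring
  have hlogk : Real.log k + 1 ≤ |u| + 3 := by
    have h10 : Real.log k = Real.log (2 * lam / β) - L := by rw [hL]; ring
    have h11 : Real.log (2 * lam / β) = Real.log 2 + u := by
      rw [hu, ← Real.log_mul (by norm_num) hlb.ne']
      congr 1
      ring
    have h12 : -L ≤ 1 := by
      have := (abs_le.1 hLabs).1
      linarith
    have h13 := Real.log_two_lt_d9
    have h14 := le_abs_self u
    rw [h10, h11]
    linarith
  set E : ℝ := Real.log (k.factorial) - ((k : ℝ) * Real.log k - k) with hE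
  have hE0 : 0 ≤ E := by
    have := fact_lower_MKB k hk1
    linarith
  have hE1 : E ≤ |u| + 3 := by
    have := fact_upper_MKB k hk1
    linarith
  -- the identity
  have hchoose : ((k.choose 2 : ℕ) : ℝ) = (k : ℝ) * (k - 1) / 2 := Nat.cast_choose_two ℝ k
  have hid : hv p n k - (al p n - k) * Real.log n = (k : ℝ) * L + x * w - E := by
    have h15 : Real.log (2 * lam / β) = Real.log 2 + u := by
      rw [hu, ← Real.log_mul (by norm_num) hlb.ne']
      congr 1
      ring
    unfold hv
    rw [hchoose, ← hβd, ← hlam, hE, hL, h15, ← hx]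
    have hxb : β / 2 * x = lam - u + 1 - Real.log 2 + β / 2 - k * β / 2 := by
      rw [hx]
      linear_combination hal
    have hwx : w = k * β / 2 - lam := hw
    rw [hwx]
    linear_combination (-(k : ℝ)) * hxb
  rw [hid]
  have habs : |(k : ℝ) * L + x * w - E| ≤ |(k : ℝ) * L| + |x * w| + |E| := by
    calc |(k : ℝ) * L + x * w - E| ≤ |(k : ℝ) * L + x * w| + |E| := abs_sub _ _
      _ ≤ |(k : ℝ) * L| + |x * w| + |E| := by
        have := abs_add_le ((k : ℝ) * L) (x * w)
        linarith
  have hxw : |x * w| ≤ K * |w| := by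
    rw [abs_mul]
    exact mul_le_mul_of_nonneg_right hxK (abs_nonneg _)
  rw [abs_of_nonneg hE0] at habs
  have hfin : 6 / β * |w| + K * |w| + (|u| + 3) ≤ A * |u| + B := by
    have h16 : (6 / β + K) * |w| ≤ (6 / β + K) * (|u| + C) :=
      mul_le_mul_of_nonneg_left hw1 (by positivity)
    rw [hA, hB]
    linarith
  linarith

end Pool.Agent.Helper14.CN
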