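import Pool.Agent.Helper82.CN.St

set_option autoImplicit false

namespace Pool.Agent.Helper14.CN

open Finset Pool.Agent.Helper82.CN

theorem tWIN : StWin := by
  classical
  intro f D N N' a e ha hN he hf h
  have haR : (2 : ℝ) ≤ a := by exact_mod_cast ha
  have ha0 : (0 : ℝ) < a := by linarith
  have ha1 : (0 : ℝ) < (a : ℝ) - 1 := by linarith
  have h1e : (0 : ℝ) ≤ (1 + e) / a := by positivity
  have hk : 0 ≤ (1 + e) / ((a : ℝ) - 1) - (1 + e) / a := by
    have : (1 + e) / a ≤ (1 + e) / ((a : ℝ) - 1) :=
      div_le_div_of_nonneg_left (by linarith) ha1 (by linarith)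
    linarith
  have hf' : ∀ m j : ℕ, f (m + j) ≤ f m + j := by
    intro m j
    induction j with
    | zero => simp
    | succ j ih =>
      have := hf (m + j)
      rw [← add_assoc]
      push_cast
      linarith
  have key : ∀ n : ℕ, N ≤ n → n ≤ N' → f n ≤ f N + a + (1 + e) / a * ((n : ℝ) - N) +
      ((1 + e) / (a - 1) - (1 + e) / a) *
        (((Ioc N n).filter (fun n => n ∈ D)).card : ℝ) := by
    intro n
    induction n using Nat.strong_induction_on with
    | _ n ih =>
      intro hn1 hn2
      rcases Nat.lt_or_ge n (N + a) with hlt | hge
      · obtain ⟨j, rfl⟩ := Nat.exists_eq_add_of_le hn1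
        have h1 := hf' N j
        have h2 : (j : ℝ) ≤ a := by
          have : j ≤ a := by omega
          exact_mod_cast this
        have h3 : 0 ≤ (1 + e) / a * (((N + j : ℕ) : ℝ) - N) := by
          apply mul_nonneg h1e
          push_cast
          have : (0 : ℝ) ≤ j := Nat.cast_nonneg j
          linarith
        have h4 : 0 ≤ ((1 + e) / ((a : ℝ) - 1) - (1 + e) / a) *
            (((Ioc N (N + j)).filter (fun n => n ∈ D)).card : ℝ) :=
          mul_nonneg hk (Nat.cast_nonneg _)
        linarith
      · rcases h n hge hn2 with h1 | ⟨h1, h2⟩
        · have h3 := ih (n - a) (by omega) (by omega) (by omega)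
          have h4 : (((Ioc N (n - a)).filter (fun n => n ∈ D)).card : ℝ) ≤
              (((Ioc N n).filter (fun n => n ∈ D)).card : ℝ) := by
            have : ((Ioc N (n - a)).filter (fun n => n ∈ D)).card ≤
                ((Ioc N n).filter (fun n => n ∈ D)).card := by
              apply Finset.card_le_card
              intro x hx
              simp only [mem_filter, mem_Ioc] at hx ⊢
              exact ⟨⟨hx.1.1, by omega⟩, hx.2⟩
            exact_mod_cast this
          have h5 : ((n - a : ℕ) : ℝ) = (n : ℝ) - a := by
            rw [Nat.cast_sub (by omega)]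
          rw [h5] at h3
          have h6 := mul_le_mul_of_nonneg_left h4 hk
          have h7 : (1 + e) / a * ((n : ℝ) - N) =
              (1 + e) / a * ((n : ℝ) - a - N) + (1 + e) := by
            field_simp
            ring
          rw [h7]
          linarith
        · have h3 := ih (n - (a - 1)) (by omega) (by omega) (by omega)
          have h4 : (((Ioc N (n - (a - 1))).filter (fun n => n ∈ D)).card : ℝ) + ((a : ℝ) - 1) ≤
              (((Ioc N n).filter (fun n => n ∈ D)).card : ℝ) := by
            have hd : Disjoint ((Ioc N (n - (a - 1))).filter (fun n => n ∈ D))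
                (Ioc (n - (a - 1)) n) := by
              rw [Finset.disjoint_left]
              intro x hx hx'
              simp only [mem_filter, mem_Ioc] at hx hx'
              omega
            have : ((Ioc N (n - (a - 1))).filter (fun n => n ∈ D)).card + (a - 1) ≤
                ((Ioc N n).filter (fun n => n ∈ D)).card := by
              have hc : (Ioc (n - (a - 1)) n).card = a - 1 := by
                rw [Nat.card_Ioc]
                omega
              have hu := Finset.card_union_of_disjoint hd
              rw [hc] at hu
              rw [← hu]
              apply Finset.card_le_card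
              intro x hx
              simp only [mem_union, mem_filter, mem_Ioc] at hx ⊢
              rcases hx with hx | hx
              · exact ⟨⟨hx.1.1, by omega⟩, hx.2⟩
              · exact ⟨⟨by omega, hx.2⟩, h2 x hx.1 hx.2⟩
            have h' : (((((Ioc N (n - (a - 1))).filter (fun n => n ∈ D)).card + (a - 1) : ℕ)) : ℝ)
                ≤ (((Ioc N n).filter (fun n => n ∈ D)).card : ℝ) := by exact_mod_cast this
            rw [Nat.cast_add, Nat.cast_sub (by omega), Nat.cast_one] at h'
            exact h'
          have h5 : ((n - (a - 1) : ℕ) : ℝ) = (n : ℝ) - (a - 1) := by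
            rw [Nat.cast_sub (by omega), Nat.cast_sub (by omega), Nat.cast_one]
          rw [h5] at h3
          have h6 := mul_le_mul_of_nonneg_left h4 hk
          have h7 : (1 + e) / a * ((n : ℝ) - N) =
              (1 + e) / a * ((n : ℝ) - (a - 1) - N) + (1 + e) / a * (a - 1) := by
            ring
          have h8 : ((1 + e) / ((a : ℝ) - 1) - (1 + e) / a) * ((a : ℝ) - 1) =
              (1 + e) - (1 + e) / a * (a - 1) := by
            rw [sub_mul]
            congr 1
            field_simp
          rw [mul_add, h8] at h6
          rw [h7]
          linarith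
  exact key N' hN le_rfl

end Pool.Agent.Helper14.CN
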